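import Pool.Agent.W102.TD.Defs

set_option autoImplicit false

namespace Pool.Agent.W2.TD

open Finset Pool.Agent.W102.TD

/-- all subsequences -/
def Tt (w : List Bool) : Finset (List Bool) := w.sublists.toFinset

/-- `u` such that `c :: u` is a subsequence -/
def Xx (c : Bool) (w : List Bool) : Finset (List Bool) :=
  (Tt w).filter fun u => List.Sublist (c :: u) w

/-- `u` such that `u1` is a subsequence -/
def Pp (w : List Bool) : Finset (List Bool) :=
  (Tt w).filter fun u => List.Sublist (u ++ [true]) w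

/-- `u` such that `cu1` is a subsequence -/
def Yy (c : Bool) (w : List Bool) : Finset (List Bool) :=
  (Tt w).filter fun u => List.Sublist (c :: (u ++ [true])) w

theorem mem_Tt (u w : List Bool) : u ∈ Tt w ↔ List.Sublist u w := by
  simp [Tt]

theorem mem_Xx (c : Bool) (u w : List Bool) : u ∈ Xx c w ↔ List.Sublist (c :: u) w := by
  rw [Xx, mem_filter, mem_Tt]
  exact ⟨fun h => h.2, fun h => ⟨(List.sublist_cons_self c u).trans h, h⟩⟩

theorem mem_Pp (u w : List Bool) : u ∈ Pp w ↔ List.Sublist (u ++ [true]) w := by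
  rw [Pp, mem_filter, mem_Tt]
  exact ⟨fun h => h.2, fun h => ⟨(List.sublist_append_left u [true]).trans h, h⟩⟩

theorem mem_Yy (c : Bool) (u w : List Bool) :
    u ∈ Yy c w ↔ List.Sublist (c :: (u ++ [true])) w := by
  rw [Yy, mem_filter, mem_Tt]
  exact ⟨fun h => h.2, fun h => ⟨((List.sublist_append_left u [true]).trans
    (List.sublist_cons_self c _)).trans h, h⟩⟩

theorem mem_U (u w : List Bool) : u ∈ U w ↔ List.Sublist u w ∧
    (List.Sublist (u ++ [true]) w ∨ down u w = true) := by
  rw [U, mem_filter, List.mem_toFinset, List.mem_sublists]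

section
variable {R : Type} [CommRing R] (a b : R)

theorem sum_split (A A1 A0 : Finset (List Bool)) (h1 : ∀ u, u ∈ A1 ↔ true :: u ∈ A)
    (h0 : ∀ u, u ∈ A0 ↔ false :: u ∈ A) :
    ∑ u ∈ A, wgt a b u = (if [] ∈ A then 1 else 0) + a * (∑ u ∈ A1, wgt a b u) +
      b * ∑ u ∈ A0, wgt a b u := by
  classical
  have hA : A = (A.filter (fun u => u = [])) ∪ (A1.image (List.cons true) ∪
      A0.image (List.cons false)) := by
    ext u
    rw [mem_union, mem_union, mem_filter, mem_image, mem_image]
    constructor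
    · intro hu
      rcases u with _ | ⟨c, u⟩
      · exact Or.inl ⟨hu, rfl⟩
      · cases c
        · exact Or.inr (Or.inr ⟨u, (h0 u).2 hu, rfl⟩)
        · exact Or.inr (Or.inl ⟨u, (h1 u).2 hu, rfl⟩)
    · rintro (h | ⟨v, hv, rfl⟩ | ⟨v, hv, rfl⟩)
      · exact h.1
      · exact (h1 v).1 hv
      · exact (h0 v).1 hv
  have hd1 : Disjoint (A.filter (fun u => u = [])) (A1.image (List.cons true) ∪
      A0.image (List.cons false)) := by
    rw [Finset.disjoint_left]
    intro u hu hu'
    rw [mem_filter] at hu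
    rw [mem_union, mem_image, mem_image] at hu'
    rcases hu' with ⟨v, _, hv⟩ | ⟨v, _, hv⟩
    · rw [hu.2] at hv
      exact List.cons_ne_nil _ _ hv
    · rw [hu.2] at hv
      exact List.cons_ne_nil _ _ hv
  have hd2 : Disjoint (A1.image (List.cons true)) (A0.image (List.cons false)) := by
    rw [Finset.disjoint_left]
    intro u hu hu'
    rw [mem_image] at hu hu'
    obtain ⟨v, _, rfl⟩ := hu
    obtain ⟨v', _, h⟩ := hu'
    simp at h
  have hs0 : ∑ u ∈ A.filter (fun u => u = []), wgt a b u = if [] ∈ A then 1 else 0 := by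
    rw [Finset.sum_filter]
    by_cases h : [] ∈ A
    · rw [Finset.sum_eq_single_of_mem [] h]
      · simp [wgt, h]
      · intro u _ hu
        rw [if_neg hu]
    · rw [if_neg h]
      apply Finset.sum_eq_zero
      intro u hu
      rw [if_neg]
      rintro rfl
      exact h hu
  rw [hA, Finset.sum_union hd1, Finset.sum_union hd2, hs0, ← hA,
    Finset.sum_image (fun x _ y _ h => (List.cons_injective h)),
    Finset.sum_image (fun x _ y _ h => (List.cons_injective h)), Finset.mul_sum, Finset.mul_sum,
    add_assoc]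
  congr 1

end

section
variable {R : Type} [CommRing R] (a b : R)

theorem Xx_true_true (w : List Bool) : Xx true (true :: w) = Tt w := by
  ext u
  rw [mem_Xx, mem_Tt, List.cons_sublist_cons]

theorem Xx_false_false (w : List Bool) : Xx false (false :: w) = Tt w := by
  ext u
  rw [mem_Xx, mem_Tt, List.cons_sublist_cons]

theorem Xx_true_false (w : List Bool) : Xx true (false :: w) = Xx true w := by
  ext u
  rw [mem_Xx, mem_Xx, List.sublist_cons_iff]
  simp

theorem Xx_false_true (w : List Bool) : Xx false (true :: w) = Xx false w := by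
  ext u
  rw [mem_Xx, mem_Xx, List.sublist_cons_iff]
  simp

theorem Yy_true_true (w : List Bool) : Yy true (true :: w) = Pp w := by
  ext u
  rw [mem_Yy, mem_Pp, List.cons_sublist_cons]

theorem Yy_false_false (w : List Bool) : Yy false (false :: w) = Pp w := by
  ext u
  rw [mem_Yy, mem_Pp, List.cons_sublist_cons]

theorem Yy_true_false (w : List Bool) : Yy true (false :: w) = Yy true w := by
  ext u
  rw [mem_Yy, mem_Yy, List.sublist_cons_iff]
  simp

theorem Yy_false_true (w : List Bool) : Yy false (true :: w) = Yy false w := by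
  ext u
  rw [mem_Yy, mem_Yy, List.sublist_cons_iff]
  simp

theorem sum_Tt (w : List Bool) : ∑ u ∈ Tt w, wgt a b u =
    1 + a * (∑ u ∈ Xx true w, wgt a b u) + b * ∑ u ∈ Xx false w, wgt a b u := by
  rw [sum_split a b (Tt w) (Xx true w) (Xx false w)
    (fun u => by rw [mem_Xx, mem_Tt]) (fun u => by rw [mem_Xx, mem_Tt]),
    if_pos ((mem_Tt [] w).2 (List.nil_sublist w))]

theorem sum_Pp (w : List Bool) : ∑ u ∈ Pp w, wgt a b u =
    (if true ∈ w then 1 else 0) + a * (∑ u ∈ Yy true w, wgt a b u) +
      b * ∑ u ∈ Yy false w, wgt a b u := by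
  rw [sum_split a b (Pp w) (Yy true w) (Yy false w)
    (fun u => by rw [mem_Yy, mem_Pp, List.cons_append])
    (fun u => by rw [mem_Yy, mem_Pp, List.cons_append])]
  congr 2
  have : ([] ∈ Pp w) ↔ true ∈ w := by
    rw [mem_Pp, List.nil_append, List.singleton_sublist]
  by_cases h : true ∈ w
  · rw [if_pos (this.2 h), if_pos h]
  · rw [if_neg (fun h' => h (this.1 h')), if_neg h]

theorem sum_U_true (w : List Bool) : ∑ u ∈ U (true :: w), wgt a b u =
    1 + a * (∑ u ∈ U w, wgt a b u) + b * ∑ u ∈ Xx false w, wgt a b u := by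
  rw [sum_split a b (U (true :: w)) (U w) (Xx false w)]
  · rw [if_pos]
    rw [mem_U]
    exact ⟨List.nil_sublist _, Or.inl (by simp)⟩
  · intro u
    rw [mem_U, mem_U, List.cons_sublist_cons, List.cons_append, List.cons_sublist_cons]
    rfl
  · intro u
    rw [mem_Xx, mem_U]
    have h1 : down (false :: u) (true :: w) = true := rfl
    rw [h1, List.sublist_cons_iff]
    simp

theorem sum_U_false (w : List Bool) : ∑ u ∈ U (false :: w), wgt a b u =
    (if true ∈ w then 1 else 0) + a * (∑ u ∈ Yy true w, wgt a b u) +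
      b * ∑ u ∈ U w, wgt a b u := by
  rw [sum_split a b (U (false :: w)) (Yy true w) (U w)]
  · congr 2
    have : ([] ∈ U (false :: w)) ↔ true ∈ w := by
      rw [mem_U]
      have h1 : down [] (false :: w) = false := rfl
      rw [h1, List.nil_append, List.singleton_sublist]
      simp
    by_cases h : true ∈ w
    · rw [if_pos (this.2 h), if_pos h]
    · rw [if_neg (fun h' => h (this.1 h')), if_neg h]
  · intro u
    rw [mem_Yy, mem_U]
    have h1 : down (true :: u) (false :: w) = false := rfl
    rw [h1, List.cons_append]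
    constructor
    · intro h
      refine ⟨?_, Or.inl (h.trans (List.sublist_cons_self _ _))⟩
      exact ((List.sublist_append_left (true :: u) [true]).trans h).trans
        (List.sublist_cons_self _ _)
    · rintro ⟨_, h | h⟩
      · rw [List.sublist_cons_iff] at h
        simpa using h
      · simp at h
  · intro u
    rw [mem_U, mem_U, List.cons_sublist_cons, List.cons_append, List.cons_sublist_cons]
    rfl

theorem Mw_true (w : List Bool) : Mw a b (true :: w) = Lm a b true * Mw a b w := by
  simp [Mw]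

theorem Mw_false (w : List Bool) : Mw a b (false :: w) = Lm a b false * Mw a b w := by
  simp [Mw]

theorem t00 (w : List Bool) : Mw a b (true :: w) 0 0 = a * (Mw a b w 0 0 + Mw a b w 1 0) := by
  rw [Mw_true, Matrix.mul_apply, Fin.sum_univ_two]; simp [Lm]; ring
theorem t01 (w : List Bool) : Mw a b (true :: w) 0 1 = a * (Mw a b w 0 1 + Mw a b w 1 1) := by
  rw [Mw_true, Matrix.mul_apply, Fin.sum_univ_two]; simp [Lm]; ring
theorem t10 (w : List Bool) : Mw a b (true :: w) 1 0 = Mw a b w 1 0 := by
  rw [Mw_true, Matrix.mul_apply, Fin.sum_univ_two]; simp [Lm]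
theorem t11 (w : List Bool) : Mw a b (true :: w) 1 1 = Mw a b w 1 1 := by
  rw [Mw_true, Matrix.mul_apply, Fin.sum_univ_two]; simp [Lm]
theorem f00 (w : List Bool) : Mw a b (false :: w) 0 0 = Mw a b w 0 0 := by
  rw [Mw_false, Matrix.mul_apply, Fin.sum_univ_two]; simp [Lm]
theorem f01 (w : List Bool) : Mw a b (false :: w) 0 1 = Mw a b w 0 1 := by
  rw [Mw_false, Matrix.mul_apply, Fin.sum_univ_two]; simp [Lm]
theorem f10 (w : List Bool) : Mw a b (false :: w) 1 0 = b * (Mw a b w 0 0 + Mw a b w 1 0) := by
  rw [Mw_false, Matrix.mul_apply, Fin.sum_univ_two]; simp [Lm]; ring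
theorem f11 (w : List Bool) : Mw a b (false :: w) 1 1 = b * (Mw a b w 0 1 + Mw a b w 1 1) := by
  rw [Mw_false, Matrix.mul_apply, Fin.sum_univ_two]; simp [Lm]; ring

theorem Xx_nil (c : Bool) : Xx c [] = ∅ := by
  ext u
  rw [mem_Xx]
  simp

theorem Yy_nil (c : Bool) : Yy c [] = ∅ := by
  ext u
  rw [mem_Yy]
  simp

theorem U_nil : U [] = ∅ := by
  ext u
  rw [mem_U]
  constructor
  · rintro ⟨h1, h2⟩
    rw [List.sublist_nil] at h1
    subst h1
    rcases h2 with h2 | h2
    · simp at h2
    · simp [down] at h2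
  · intro h
    simp at h

theorem key (w : List Bool) :
    ((if true ∈ w then 1 else 0) + a * (∑ u ∈ Yy true w, wgt a b u) =
      1 + a * (∑ u ∈ Xx true w, wgt a b u) - Mw a b w 0 0) ∧
    (b * (∑ u ∈ Yy false w, wgt a b u) =
      b * (∑ u ∈ Xx false w, wgt a b u) - Mw a b w 1 0) ∧
    ((1 - a - b) * (a * ∑ u ∈ Xx true w, wgt a b u) =
      a - a * Mw a b w 0 0 - b * Mw a b w 0 1) ∧
    ((1 - a - b) * (b * ∑ u ∈ Xx false w, wgt a b u) =
      b - a * Mw a b w 1 0 - b * Mw a b w 1 1) ∧
    ((1 - a - b) * (∑ u ∈ U w, wgt a b u) =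
      1 - Mw a b w 0 0 - b * Mw a b w 0 1 - b * Mw a b w 1 1 + b * wgt a b w) := by
  induction w with
  | nil =>
    rw [Xx_nil, Xx_nil, Yy_nil, Yy_nil, U_nil]
    simp [Mw, wgt]
  | cons c w ih =>
    obtain ⟨h1, h2, h3, h4, h5⟩ := ih
    cases c
    · have hw : wgt a b (false :: w) = b * wgt a b w := by simp [wgt]
      have hmem : (true ∈ false :: w) ↔ true ∈ w := by simp
      rw [f00, f01, f10, f11, Xx_true_false, Xx_false_false, Yy_true_false, Yy_false_false,
        sum_U_false, sum_Tt, sum_Pp, hw, if_congr hmem rfl rfl]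
      refine ⟨h1, ?_, h3, ?_, ?_⟩
      · linear_combination b * h1 + b * h2
      · linear_combination b * h3 + b * h4
      · linear_combination (1 - a - b) * h1 + h3 + b * h5
    · have hw : wgt a b (true :: w) = a * wgt a b w := by simp [wgt]
      rw [t00, t01, t10, t11, Xx_true_true, Xx_false_true, Yy_true_true, Yy_false_true,
        sum_U_true, sum_Tt, sum_Pp, hw, if_pos (by simp : true ∈ true :: w)]
      refine ⟨?_, h2, ?_, h4, ?_⟩
      · linear_combination a * h1 + a * h2
      · linear_combination a * h3 + a * h4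
      · linear_combination a * h5 + h4

end

theorem RING : Pool.Agent.W102.TD.RING := by
  intro R _ a b w
  have h := (key a b w).2.2.2.2
  have ht : Matrix.trace (Mw a b (false :: w)) =
      Mw a b w 0 0 + b * (Mw a b w 0 1 + Mw a b w 1 1) := by
    rw [Matrix.trace_fin_two, f00, f11]
  rw [ht, h]
  ring

end Pool.Agent.W2.TD
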